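import Mathlib
import Pool.Agent.H87.DDelta.Space

set_option autoImplicit false

namespace Pool.Agent.H87.DDelta

open Set Function MeasureTheory

/-- a fair coin -/
noncomputable def coin : Measure Bool := (PMF.uniformOfFintype Bool).toMeasure

instance : IsProbabilityMeasure coin := by
  unfold coin
  infer_instance

theorem coin_pos (c : Bool) : 0 < coin {c} := by
  unfold coin
  rw [PMF.toMeasure_apply_singleton _ _ (MeasurableSet.singleton c)]
  simp

/-- the product measure on a Cantor cube -/
noncomputable def mu (ι : Type) : Measure (ι → Bool) := Measure.infinitePi (fun _ => coin)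

instance (ι : Type) : IsProbabilityMeasure (mu ι) := by
  unfold mu
  infer_instance

/-- a cylinder -/
def box {ι : Type} (F : Finset ι) (x : ι → Bool) : Set (ι → Bool) :=
  (F : Set ι).pi (fun i => {x i})

theorem box_measurable {ι : Type} (F : Finset ι) (x : ι → Bool) : MeasurableSet (box F x) :=
  MeasurableSet.pi F.countable_toSet (fun i _ => MeasurableSet.singleton (x i))

theorem mu_box_pos {ι : Type} (F : Finset ι) (x : ι → Bool) : 0 < mu ι (box F x) := by
  unfold mu box
  rw [Measure.infinitePi_pi _ (fun i _ => MeasurableSet.singleton (x i))]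
  exact CanonicallyOrderedAdd.prod_pos.2 (fun i _ => coin_pos (x i))

theorem exists_box_subset {ι : Type} {U : Set (ι → Bool)} (hU : IsOpen U) (hne : U.Nonempty) :
    ∃ F x, box F x ⊆ U := by
  obtain ⟨x, hx⟩ := hne
  rw [isOpen_pi_iff] at hU
  obtain ⟨F, u, hu, hF⟩ := hU x hx
  refine ⟨F, x, fun y hy => hF fun i hi => ?_⟩
  have h1 : y i = x i := hy i hi
  rw [h1]
  exact (hu i hi).2

/-- The Cantor cube has the countable chain condition. -/
theorem countable_of_disjoint {ι : Type} (C : Set (Set (ι → Bool))) (hC : C.PairwiseDisjoint id)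
    (hCo : ∀ U ∈ C, IsOpen U ∧ U.Nonempty) : C.Countable := by
  have h : ∀ U : C, ∃ F x, box F x ⊆ U.1 := fun U => exists_box_subset (hCo U.1 U.2).1 (hCo U.1 U.2).2
  choose F x hFx using h
  have h1 := Measure.countable_meas_pos_of_disjoint_iUnion (μ := mu ι)
    (As := fun U : C => box (F U) (x U)) (fun U => box_measurable _ _) (by
      intro U V hUV
      have h2 : Disjoint U.1 V.1 := hC U.2 V.2 (fun h => hUV (Subtype.ext h))
      exact h2.mono (hFx U) (hFx V))
  have h2 : {U : C | 0 < mu ι (box (F U) (x U))} = univ := by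
    ext U
    simp [mu_box_pos]
  rw [h2] at h1
  exact Set.countable_coe_iff.1 (Set.countable_univ_iff.1 h1)

/-- A Cantor cube with uncountably many coordinates has no π-base which is a countable union of
disjoint families. -/
theorem no_sigma_disjoint {ι κ : Type} [Uncountable ι] [Countable κ]
    (C : κ → Set (Set (ι → Bool))) (hC : ∀ i, (C i).PairwiseDisjoint id)
    (hCo : ∀ i, ∀ U ∈ C i, IsOpen U ∧ U.Nonempty)
    (hb : ∀ V : Set (ι → Bool), IsOpen V → V.Nonempty → ∃ i, ∃ U ∈ C i, U ⊆ V) : False := by
  classical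
  let B : Set (Set (ι → Bool)) := ⋃ i, C i
  have hB : B.Countable := countable_iUnion fun i => countable_of_disjoint _ (hC i) (hCo i)
  have hBo : ∀ U : B, ∃ F x, box F x ⊆ U.1 := by
    intro U
    obtain ⟨i, hi⟩ := mem_iUnion.1 U.2
    exact exists_box_subset (hCo i _ hi).1 (hCo i _ hi).2
  choose F x hFx using hBo
  have hBc : Countable B := hB
  have hcount : (⋃ U : B, (F U : Set ι)).Countable :=
    countable_iUnion fun U => (F U).countable_toSet
  obtain ⟨i, hi⟩ : ∃ i, i ∉ ⋃ U : B, (F U : Set ι) := by
    by_contra hcon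
    push Not at hcon
    have h1 : (univ : Set ι).Countable := hcount.mono (fun i _ => hcon i)
    exact not_countable (Set.countable_univ_iff.1 h1)
  have hV : IsOpen {y : ι → Bool | y i = true} := by
    have h : Continuous (fun y : ι → Bool => y i) := continuous_apply i
    exact h.isOpen_preimage _ (isOpen_discrete ({true} : Set Bool))
  obtain ⟨k, U, hU, hUV⟩ := hb _ hV ⟨fun _ => true, rfl⟩
  let U' : B := ⟨U, mem_iUnion.2 ⟨k, hU⟩⟩
  have h1 : Function.update (x U') i false ∈ box (F U') (x U') := by
    intro j hj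
    have hji : j ≠ i := by
      rintro rfl
      exact hi (mem_iUnion.2 ⟨U', hj⟩)
    simp [hji]
  have h2 := hUV (hFx U' h1)
  simp at h2

end Pool.Agent.H87.DDelta
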